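import Mathlib
import Pool.Agent.Y947.RL.Stm4

/-!
# Project RL, job CNJ: conjugates of the minimal polynomial over the field of all roots of unity

The Galois group of `QAb` over `ℚ` acts transitively on the primitive `m`-th roots of unity, so all
the specialisations of `F` are conjugates of the minimal polynomial of `z` over `QAb`; they divide
the minimal polynomial of `z` over `ℚ`.
-/

set_option autoImplicit false

open Finset Polynomial Module

namespace Pool.Agent.Y235.RL.Cnj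

open Pool.Agent.Y947.RL

theorem sp_map {A B : Type*} [CommRing A] [CommRing B] (g : A →+* B) (ω : A) (F : ℤ[X][X]) :
    (sp ω F).map g = sp (g ω) F := by
  unfold sp
  rw [Polynomial.map_map]
  congr 1
  ext <;> simp

theorem mem_QAb {ω : ℂ} {m : ℕ} (hm : 0 < m) (h : ω ^ m = 1) : ω ∈ QAb :=
  IntermediateField.subset_adjoin ℚ _ ⟨m, hm, h⟩

theorem galQ : IsGalois ℚ QAb := by
  have h : ∀ n ∈ {n : ℕ | 0 < n}, n ≠ 0 → ∃ r : ℂ, IsPrimitiveRoot r n := by
    intro n _ hn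
    exact ⟨_, Complex.isPrimitiveRoot_exp n hn⟩
  have h2 := IntermediateField.isCyclotomicExtension_adjoin_of_exists_isPrimitiveRoot
    {n : ℕ | 0 < n} ℚ ℂ h
  have h3 : IntermediateField.adjoin ℚ {x : ℂ | ∃ n ∈ {n : ℕ | 0 < n}, n ≠ 0 ∧ x ^ n = 1} = QAb := by
    unfold QAb
    congr 1
    ext x
    constructor
    · rintro ⟨n, hn, _, hx⟩
      exact ⟨n, hn, hx⟩
    · rintro ⟨n, hn, hx⟩
      exact ⟨n, hn, hn.ne', hx⟩
  have h5 := @IsCyclotomicExtension.isGalois {n : ℕ | 0 < n} ℚ _ _ _ _ h2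
  rw [h3] at h5
  convert h5
  exact Subsingleton.elim _ _

theorem exists_gal {m : ℕ} (hm : 0 < m) {ω₀ ω : QAb} (h₀ : IsPrimitiveRoot ω₀ m)
    (h : IsPrimitiveRoot ω m) : ∃ g : QAb ≃ₐ[ℚ] QAb, g ω₀ = ω := by
  have := galQ
  have : Normal ℚ QAb := inferInstance
  have ha : IsAlgebraic ℚ ω₀ := Algebra.IsAlgebraic.isAlgebraic ω₀
  apply minpoly.exists_algEquiv_of_root' ha
  rw [← Polynomial.cyclotomic_eq_minpoly_rat h₀ hm, Polynomial.cyclotomic_eq_minpoly_rat h hm]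
  exact minpoly.aeval ℚ ω

theorem dvd_key {z : ℂ} {m : ℕ} (hm : 0 < m) {ω₀ ω : QAb} (h₀ : IsPrimitiveRoot ω₀ m)
    (h : IsPrimitiveRoot ω m) {F : ℤ[X][X]} (hF : sp ω₀ F = minpoly QAb z) :
    sp ω F ∣ (minpoly ℚ z).map (algebraMap ℚ QAb) := by
  obtain ⟨g, hg⟩ := exists_gal hm h₀ h
  have h1 : minpoly QAb z ∣ (minpoly ℚ z).map (algebraMap ℚ QAb) :=
    minpoly.dvd_map_of_isScalarTower ℚ QAb z
  rw [← hF] at h1
  have h2 := Polynomial.map_dvd (g : QAb →+* QAb) h1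
  rw [sp_map, Polynomial.map_map] at h2
  have h3 : (g : QAb →+* QAb).comp (algebraMap ℚ QAb) = algebraMap ℚ QAb :=
    Subsingleton.elim _ _
  rw [h3] at h2
  have h4 : (g : QAb →+* QAb) ω₀ = ω := hg
  rwa [h4] at h2

theorem root_key {z : ℂ} {m : ℕ} (hm : 0 < m) {ω₀ : QAb} (h₀ : IsPrimitiveRoot ω₀ m) {ω : ℂ}
    (h : IsPrimitiveRoot ω m) {F : ℤ[X][X]} (hF : sp ω₀ F = minpoly QAb z) {a : ℂ}
    (ha : (sp ω F).eval a = 0) : aeval a (minpoly ℚ z) = 0 := by
  have hω : ω ∈ QAb := mem_QAb hm h.pow_eq_one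
  have h' : IsPrimitiveRoot (⟨ω, hω⟩ : QAb) m := by
    apply IsPrimitiveRoot.of_map_of_injective (f := algebraMap QAb ℂ) _
      (algebraMap QAb ℂ).injective
    exact h
  have h1 := dvd_key hm h₀ h' hF
  have h2 := Polynomial.map_dvd (algebraMap QAb ℂ) h1
  rw [sp_map, Polynomial.map_map] at h2
  have h3 : (algebraMap QAb ℂ) ⟨ω, hω⟩ = ω := rfl
  rw [h3] at h2
  obtain ⟨q, hq⟩ := h2
  have h4 : (algebraMap QAb ℂ).comp (algebraMap ℚ QAb) = algebraMap ℚ ℂ :=
    Subsingleton.elim _ _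
  rw [h4] at hq
  rw [Polynomial.aeval_def, ← Polynomial.eval_map, hq, Polynomial.eval_mul, ha, zero_mul]

theorem minpoly_eq {z a : ℂ} (hz : IsIntegral ℚ z) (h : aeval a (minpoly ℚ z) = 0) :
    minpoly ℚ z = minpoly ℚ a :=
  minpoly.eq_of_irreducible_of_monic (minpoly.irreducible hz) h (minpoly.monic hz)

theorem cnj : T_CNJ := by
  intro z hz hz0 hzr m ω₀ F hm h₀ hmon hF
  have hzQ : IsIntegral ℚ z := hz.tower_top
  have hzQAb : IsIntegral QAb z := hz.tower_top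
  refine ⟨hm, hmon, ?_, ?_, ?_⟩
  · intro ω hω
    obtain ⟨g, hg⟩ := exists_gal hm h₀ hω
    have h1 : Irreducible (sp ω₀ F) := by
      rw [hF]
      exact minpoly.irreducible hzQAb
    have h2 : sp ω F = Polynomial.mapEquiv (g : QAb ≃+* QAb) (sp ω₀ F) := by
      rw [Polynomial.mapEquiv_apply]
      have h3 := sp_map (g : QAb →+* QAb) ω₀ F
      have h4 : (g : QAb →+* QAb) ω₀ = ω := hg
      rw [h4] at h3
      rw [← h3]
      rfl
    rw [h2]
    exact (MulEquiv.irreducible_iff _).mpr h1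
  · intro ω hω h
    have h1 := minpoly_eq hzQ (root_key hm h₀ hω hF h)
    have h2 := minpoly.aeval ℚ z
    rw [h1, minpoly.zero] at h2
    simp at h2
    exact hz0 h2
  · intro ω hω a ha k hk hak
    have h1 := minpoly_eq hzQ (root_key hm h₀ hω hF ha)
    have h2 : minpoly ℚ a ∣ X ^ k - 1 := by
      apply minpoly.dvd
      simp [hak]
    rw [← h1] at h2
    obtain ⟨q, hq⟩ := h2
    have h3 : aeval z (X ^ k - 1 : ℚ[X]) = 0 := by
      rw [hq, map_mul, minpoly.aeval, zero_mul]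
    simp at h3
    exact hzr k hk (by linear_combination h3)

end Pool.Agent.Y235.RL.Cnj
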